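import Mathlib

set_option autoImplicit false

/-!
# Hausdorff approximation by Gauss-Weierstrass, Abel-Poisson and de la Vallée-Poussin operators

Every bounded measurable function which is approximated in the Hausdorff metric at the rate
`O(n^{-1/2})` by `W_n f` or `V_n f`, or at the rate `O(1 - ρ)` by `P_ρ f`, is continuous: the three
constants `c_W^*`, `c_P^*`, `c_V^*` are infinite.
-/

open Set Filter Topology MeasureTheory
open scoped ENNReal

namespace Pool.Agent.Results.MP_fbd0a7_an.InfiniteConstants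

/-- The metric `ρ_α` in the plane. -/
noncomputable def rho (α : ℝ) (A B : ℝ × ℝ) : ℝ := max (α⁻¹ * |A.1 - B.1|) |A.2 - B.2|

/-- `S(f; x) = lim_{δ → 0} sup {f(t) : |t - x| < δ}` (an infimum over `δ`, by monotonicity). -/
noncomputable def SS (f : ℝ → ℝ) (x : ℝ) : ℝ :=
  ⨅ δ : {δ : ℝ // 0 < δ}, sSup (f '' {t | |t - x| < δ})

/-- `I(f; x) = lim_{δ → 0} inf {f(t) : |t - x| < δ}` (a supremum over `δ`, by monotonicity). -/
noncomputable def II (f : ℝ → ℝ) (x : ℝ) : ℝ :=
  ⨆ δ : {δ : ℝ // 0 < δ}, sInf (f '' {t | |t - x| < δ})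

/-- The completed graph. -/
def cgraph (f : ℝ → ℝ) : Set (ℝ × ℝ) := {p | II f p.1 ≤ p.2 ∧ p.2 ≤ SS f p.1}

/-- The Hausdorff distance `r(α; f, g)` with parameter `α`. -/
noncomputable def r (α : ℝ) (f g : ℝ → ℝ) : ℝ≥0∞ :=
  max (⨆ A ∈ cgraph f, ⨅ B ∈ cgraph g, ENNReal.ofReal (rho α A B))
    (⨆ A ∈ cgraph g, ⨅ B ∈ cgraph f, ENNReal.ofReal (rho α A B))

/-- Lebesgue measurable functions: equal almost everywhere to a Borel function. -/
def LebesgueMeasurable (f : ℝ → ℝ) : Prop := AEMeasurable f volume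

/-- bounded functions -/
def Bdd (f : ℝ → ℝ) : Prop := ∃ M : ℝ, ∀ x, |f x| ≤ M

/-- The Gauss-Weierstrass operator. -/
noncomputable def W (n : ℕ) (f : ℝ → ℝ) (x : ℝ) : ℝ :=
  Real.sqrt (n / Real.pi) * ∫ t : ℝ, f t * Real.exp (-n * (t - x) ^ 2)

/-- The Abel-Poisson operator. -/
noncomputable def P (ρ : ℝ) (f : ℝ → ℝ) (x : ℝ) : ℝ :=
  1 / (2 * Real.pi) * ∫ t in (-Real.pi)..Real.pi,
    f (x - t) * ((1 - ρ ^ 2) / (1 - 2 * ρ * Real.cos t + ρ ^ 2))

/-- The de la Vallée-Poussin operator. -/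
noncomputable def V (n : ℕ) (f : ℝ → ℝ) (x : ℝ) : ℝ :=
  (n.factorial : ℝ) ^ 2 / (2 * Real.pi * ((2 * n).factorial : ℝ)) *
    ∫ t in (-Real.pi)..Real.pi, f (x - t) * (2 * Real.cos (t / 2)) ^ (2 * n)

/-- The constant `c_W^*`. -/
noncomputable def cW (α : ℝ) : ℝ≥0∞ :=
  sSup {c : ℝ≥0∞ | 0 < c ∧ ∀ f : ℝ → ℝ, LebesgueMeasurable f → Bdd f →
    limsup (fun n : ℕ => ENNReal.ofReal (α * Real.sqrt n) * r α f (W n f)) atTop < c →
      Continuous f}

/-- The constant `c_P^*`. -/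
noncomputable def cP (α : ℝ) : ℝ≥0∞ :=
  sSup {c : ℝ≥0∞ | 0 < c ∧ ∀ f : ℝ → ℝ, LebesgueMeasurable f → Bdd f →
    Function.Periodic f (2 * Real.pi) →
    limsup (fun ρ : ℝ => ENNReal.ofReal (α / (1 - ρ)) * r α f (P ρ f)) (𝓝[<] 1) < c →
      Continuous f}

/-- The constant `c_V^*`. -/
noncomputable def cV (α : ℝ) : ℝ≥0∞ :=
  sSup {c : ℝ≥0∞ | 0 < c ∧ ∀ f : ℝ → ℝ, LebesgueMeasurable f → Bdd f →
    Function.Periodic f (2 * Real.pi) →
    limsup (fun n : ℕ => ENNReal.ofReal (α * Real.sqrt n) * r α f (V n f)) atTop < c →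
      Continuous f}

/-! ### Completed graphs -/

lemma img_nonempty (f : ℝ → ℝ) (x : ℝ) (δ : {δ : ℝ // 0 < δ}) :
    (f '' {t | |t - x| < δ}).Nonempty := ⟨f x, x, by simpa using δ.2, rfl⟩

lemma img_bddAbove {f : ℝ → ℝ} {M : ℝ} (hM : ∀ x, |f x| ≤ M) (s : Set ℝ) :
    BddAbove (f '' s) := ⟨M, by rintro _ ⟨t, _, rfl⟩; exact (abs_le.1 (hM t)).2⟩

lemma img_bddBelow {f : ℝ → ℝ} {M : ℝ} (hM : ∀ x, |f x| ≤ M) (s : Set ℝ) :
    BddBelow (f '' s) := ⟨-M, by rintro _ ⟨t, _, rfl⟩; exact (abs_le.1 (hM t)).1⟩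

lemma le_SS {f : ℝ → ℝ} {M : ℝ} (hM : ∀ x, |f x| ≤ M) (x : ℝ) : f x ≤ SS f x := by
  have : Nonempty {δ : ℝ // 0 < δ} := ⟨⟨1, one_pos⟩⟩
  exact le_ciInf fun δ => le_csSup (img_bddAbove hM _) ⟨x, by simpa using δ.2, rfl⟩

lemma II_le {f : ℝ → ℝ} {M : ℝ} (hM : ∀ x, |f x| ≤ M) (x : ℝ) : II f x ≤ f x := by
  have : Nonempty {δ : ℝ // 0 < δ} := ⟨⟨1, one_pos⟩⟩
  exact ciSup_le fun δ => csInf_le (img_bddBelow hM _) ⟨x, by simpa using δ.2, rfl⟩

lemma bddBelow_range {f : ℝ → ℝ} {M : ℝ} (hM : ∀ x, |f x| ≤ M) (x : ℝ) :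
    BddBelow (range fun δ : {δ : ℝ // 0 < δ} => sSup (f '' {t | |t - x| < δ})) := by
  refine ⟨f x, ?_⟩
  rintro _ ⟨δ, rfl⟩
  exact le_csSup (img_bddAbove hM _) ⟨x, by simpa using δ.2, rfl⟩

lemma bddAbove_range {f : ℝ → ℝ} {M : ℝ} (hM : ∀ x, |f x| ≤ M) (x : ℝ) :
    BddAbove (range fun δ : {δ : ℝ // 0 < δ} => sInf (f '' {t | |t - x| < δ})) := by
  refine ⟨f x, ?_⟩
  rintro _ ⟨δ, rfl⟩
  exact csInf_le (img_bddBelow hM _) ⟨x, by simpa using δ.2, rfl⟩

lemma SS_near {f : ℝ → ℝ} {M : ℝ} (hM : ∀ x, |f x| ≤ M) (x : ℝ) {η : ℝ} (hη : 0 < η) :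
    ∃ δ > 0, ∀ t, |t - x| < δ → f t ≤ SS f x + η := by
  have : Nonempty {δ : ℝ // 0 < δ} := ⟨⟨1, one_pos⟩⟩
  obtain ⟨δ, hδ⟩ := exists_lt_of_ciInf_lt (show SS f x < SS f x + η by linarith)
  exact ⟨δ, δ.2, fun t ht => (le_csSup (img_bddAbove hM _) ⟨t, ht, rfl⟩).trans hδ.le⟩

lemma II_near {f : ℝ → ℝ} {M : ℝ} (hM : ∀ x, |f x| ≤ M) (x : ℝ) {η : ℝ} (hη : 0 < η) :
    ∃ δ > 0, ∀ t, |t - x| < δ → II f x - η ≤ f t := by
  have : Nonempty {δ : ℝ // 0 < δ} := ⟨⟨1, one_pos⟩⟩
  obtain ⟨δ, hδ⟩ := exists_lt_of_lt_ciSup (show II f x - η < II f x by linarith)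
  exact ⟨δ, δ.2, fun t ht => hδ.le.trans (csInf_le (img_bddBelow hM _) ⟨t, ht, rfl⟩)⟩

lemma pick_sup {g : ℝ → ℝ} {M : ℝ} (hM : ∀ x, |g x| ≤ M) {x y ε : ℝ} (hy : y ≤ SS g x)
    (hε : 0 < ε) : ∃ t, |t - x| < ε ∧ y - ε ≤ g t := by
  have h1 : SS g x ≤ sSup (g '' {t | |t - x| < ε}) := ciInf_le (bddBelow_range hM x) ⟨ε, hε⟩
  obtain ⟨_, ⟨t, ht, rfl⟩, h2⟩ := exists_lt_of_lt_csSup (img_nonempty g x ⟨ε, hε⟩)
    (show y - ε < sSup (g '' {t | |t - x| < ε}) by linarith)
  exact ⟨t, ht, h2.le⟩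

lemma pick_inf {g : ℝ → ℝ} {M : ℝ} (hM : ∀ x, |g x| ≤ M) {x y ε : ℝ} (hy : II g x ≤ y)
    (hε : 0 < ε) : ∃ t, |t - x| < ε ∧ g t ≤ y + ε := by
  have h1 : sInf (g '' {t | |t - x| < ε}) ≤ II g x := le_ciSup (bddAbove_range hM x) ⟨ε, hε⟩
  obtain ⟨_, ⟨t, ht, rfl⟩, h2⟩ := exists_lt_of_csInf_lt (img_nonempty g x ⟨ε, hε⟩)
    (show sInf (g '' {t | |t - x| < ε}) < y + ε by linarith)
  exact ⟨t, ht, h2.le⟩

lemma continuous_of_SS_le {f : ℝ → ℝ} {M : ℝ} (hM : ∀ x, |f x| ≤ M)
    (h : ∀ x, SS f x ≤ II f x) : Continuous f := by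
  rw [Metric.continuous_iff]
  intro x ε hε
  obtain ⟨δ1, hδ1, h1⟩ := SS_near hM x (η := ε / 2) (by linarith)
  obtain ⟨δ2, hδ2, h2⟩ := II_near hM x (η := ε / 2) (by linarith)
  refine ⟨min δ1 δ2, lt_min hδ1 hδ2, fun t ht => ?_⟩
  rw [Real.dist_eq] at ht ⊢
  have e1 := h1 t (lt_of_lt_of_le ht (min_le_left _ _))
  have e2 := h2 t (lt_of_lt_of_le ht (min_le_right _ _))
  have e3 := h x
  have e4 := le_SS hM x
  have e5 := II_le hM x
  rw [abs_lt]
  constructor <;> linarith

/-- Two points of the completed graph of `g` close to the ends of the vertical segment of the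
completed graph of `f` over `x`. -/
lemma approx_points {α : ℝ} (hα : 0 < α) {f g : ℝ → ℝ} {M : ℝ} (hf : ∀ x, |f x| ≤ M)
    (hg : ∀ x, |g x| ≤ M) {c ε : ℝ} (hc : 0 ≤ c) (hε : 0 < ε)
    (h : ENNReal.ofReal (α / ε) * r α f g < ENNReal.ofReal c) (x : ℝ) :
    (∃ t, |t - x| ≤ (c + c / α + 1) * ε ∧ SS f x - (c + c / α + 1) * ε ≤ g t) ∧
    (∃ t, |t - x| ≤ (c + c / α + 1) * ε ∧ g t ≤ II f x + (c + c / α + 1) * ε) := by
  have hr : r α f g < ENNReal.ofReal (c * ε / α) := by
    have h1 : ENNReal.ofReal (ε / α) * (ENNReal.ofReal (α / ε) * r α f g) <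
        ENNReal.ofReal (ε / α) * ENNReal.ofReal c := by
      apply ENNReal.mul_lt_mul_right (by positivity) ENNReal.ofReal_ne_top h
    rw [← mul_assoc, ← ENNReal.ofReal_mul (by positivity), ← ENNReal.ofReal_mul (by positivity),
      show ε / α * (α / ε) = 1 by field_simp, ENNReal.ofReal_one, one_mul] at h1
    rwa [show ε / α * c = c * ε / α by ring] at h1
  have key : ∀ y : ℝ, (x, y) ∈ cgraph f → ∃ B ∈ cgraph g, rho α (x, y) B < c * ε / α := by
    intro y hy
    have h1 : (⨅ B ∈ cgraph g, ENNReal.ofReal (rho α (x, y) B)) < ENNReal.ofReal (c * ε / α) := by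
      refine lt_of_le_of_lt ?_ hr
      refine le_trans ?_ (le_max_left _ _)
      exact le_iSup₂ (f := fun (A : ℝ × ℝ) (_ : A ∈ cgraph f) =>
        ⨅ B ∈ cgraph g, ENNReal.ofReal (rho α A B)) (x, y) hy
    rw [iInf_lt_iff] at h1
    obtain ⟨B, hB⟩ := h1
    rw [iInf_lt_iff] at hB
    obtain ⟨hB1, hB2⟩ := hB
    exact ⟨B, hB1, (ENNReal.ofReal_lt_ofReal_iff_of_nonneg (by
      unfold rho; exact le_max_of_le_right (abs_nonneg _))).1 hB2⟩
  have est : ∀ (y : ℝ) (B : ℝ × ℝ), rho α (x, y) B < c * ε / α →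
      |x - B.1| ≤ c * ε ∧ |y - B.2| ≤ c / α * ε := by
    intro y B hB
    unfold rho at hB
    have h1 := (max_lt_iff.1 hB).1
    have h2 := (max_lt_iff.1 hB).2
    constructor
    · simp only at h1
      rw [inv_mul_lt_iff₀ hα] at h1
      rw [show α * (c * ε / α) = c * ε by field_simp] at h1
      exact h1.le
    · simp only at h2
      rw [show c / α * ε = c * ε / α by ring]
      exact h2.le
  have hcα : 0 ≤ c / α := by positivity
  constructor
  · obtain ⟨B, hB1, hB2⟩ := key (SS f x) ⟨(II_le hf x).trans (le_SS hf x), le_refl _⟩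
    obtain ⟨e1, e2⟩ := est _ _ hB2
    obtain ⟨t, ht1, ht2⟩ := pick_sup hg hB1.2 hε
    refine ⟨t, ?_, ?_⟩
    · have : |t - x| ≤ |t - B.1| + |x - B.1| := by
        rw [abs_sub_comm x B.1]
        exact abs_sub_le _ _ _
      nlinarith [mul_nonneg hcα hε.le]
    · have := (abs_le.1 e2).2
      nlinarith [mul_nonneg hc hε.le]
  · obtain ⟨B, hB1, hB2⟩ := key (II f x) ⟨le_refl _, (II_le hf x).trans (le_SS hf x)⟩
    obtain ⟨e1, e2⟩ := est _ _ hB2
    obtain ⟨t, ht1, ht2⟩ := pick_inf hg hB1.1 hε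
    refine ⟨t, ?_, ?_⟩
    · have : |t - x| ≤ |t - B.1| + |x - B.1| := by
        rw [abs_sub_comm x B.1]
        exact abs_sub_le _ _ _
      nlinarith [mul_nonneg hcα hε.le]
    · have := (abs_le.1 e2).1
      nlinarith [mul_nonneg hc hε.le]

/-! ### The overlap argument -/

/-- The main lemma: kernels of scale `ε` cannot separate `SS f x₀` from `II f x₀`. -/
lemma key {ι : Type*} {l : Filter ι} [l.NeBot] {f : ℝ → ℝ} {M : ℝ}
    (hM : ∀ x, |f x| ≤ M) (x₀ : ℝ) (μ : Measure ℝ) (hf : AEMeasurable f μ) (K : ι → ℝ → ℝ) (ε : ι → ℝ)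
    (hε : Tendsto ε l (𝓝 0)) (hεp : ∀ᶠ n in l, 0 < ε n)
    (hK0 : ∀ᶠ n in l, ∀ s, 0 ≤ K n s)
    (hKint : ∀ᶠ n in l, ∀ t, Integrable (fun s => K n (s - t)) μ ∧ ∫ s, K n (s - t) ∂μ = 1)
    (htail : ∀ D δ η : ℝ, 0 < δ → 0 < η → ∀ᶠ n in l, ∀ t, |t - x₀| ≤ D * ε n →
      ∫ s in {s | δ ≤ |s - x₀|}, K n (s - t) ∂μ ≤ η)
    (hover : ∀ D : ℝ, ∃ κ > 0, ∀ᶠ n in l, ∀ t, |t - x₀| ≤ D * ε n →
      ∀ s, |s - x₀| < ε n → κ / ε n ≤ K n (s - t))
    (hμ : ∀ᶠ n in l, ε n ≤ μ.real {s | |s - x₀| < ε n})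
    (happ : ∃ D : ℝ, ∀ᶠ n in l,
      (∃ t, |t - x₀| ≤ D * ε n ∧ SS f x₀ - D * ε n ≤ ∫ s, f s * K n (s - t) ∂μ) ∧
      (∃ u, |u - x₀| ≤ D * ε n ∧ ∫ s, f s * K n (s - u) ∂μ ≤ II f x₀ + D * ε n)) :
    SS f x₀ ≤ II f x₀ := by
  by_contra hcon
  push Not at hcon
  set S := SS f x₀ with hS
  set I := II f x₀ with hI
  obtain ⟨D, hD⟩ := happ
  obtain ⟨κ, hκ, hov⟩ := hover D
  have hM0 : 0 ≤ M := (abs_nonneg _).trans (hM 0)
  have hSM : S ≤ M := by
    obtain ⟨δ, hδ, h⟩ := SS_near hM x₀ (η := 1) one_pos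
    have h1 : SS f x₀ ≤ sSup (f '' {t | |t - x₀| < 1}) := ciInf_le (bddBelow_range hM x₀) ⟨1, one_pos⟩
    refine h1.trans (csSup_le (img_nonempty f x₀ ⟨1, one_pos⟩) ?_)
    rintro _ ⟨t, _, rfl⟩
    exact (abs_le.1 (hM t)).2
  have hSM' : -M ≤ S := ((abs_le.1 (hM x₀)).1).trans (le_SS hM x₀)
  have hIM : -M ≤ I := by
    have h1 : sInf (f '' {t | |t - x₀| < 1}) ≤ II f x₀ := le_ciSup (bddAbove_range hM x₀) ⟨1, one_pos⟩
    refine le_trans (le_csInf (img_nonempty f x₀ ⟨1, one_pos⟩) ?_) h1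
    rintro _ ⟨t, _, rfl⟩
    exact (abs_le.1 (hM t)).1
  have hIM' : I ≤ M := (II_le hM x₀).trans ((abs_le.1 (hM x₀)).2)
  set gap := S - I with hgap
  have hgap0 : 0 < gap := by linarith
  -- choice of `η`
  set η := gap * κ / (4 * (2 + 4 * M)) with hη
  have hη0 : 0 < η := by positivity
  obtain ⟨δ1, hδ1, hn1⟩ := SS_near hM x₀ hη0
  obtain ⟨δ2, hδ2, hn2⟩ := II_near hM x₀ hη0
  set δ := min δ1 δ2 with hδ
  have hδ0 : 0 < δ := lt_min hδ1 hδ2
  have hεδ : ∀ᶠ n in l, ε n < δ := hε.eventually (gt_mem_nhds hδ0)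
  have hεD : ∀ᶠ n in l, 2 * D * ε n < gap * κ / 4 := by
    have : Tendsto (fun n => 2 * D * ε n) l (𝓝 (2 * D * 0)) := hε.const_mul _
    rw [mul_zero] at this
    exact this.eventually (gt_mem_nhds (by positivity))
  obtain ⟨n, hn⟩ := (hD.and (hov.and ((htail D δ η hδ0 hη0).and (hεδ.and (hεD.and
    (hεp.and (hK0.and (hKint.and hμ)))))))).exists
  obtain ⟨⟨⟨t, ht1, ht2⟩, ⟨u, hu1, hu2⟩⟩, hov', htl, hlt, hDs, hp, hnn, hint, hmu⟩ := hn
  obtain ⟨hit, hit1⟩ := hint t
  obtain ⟨hiu, hiu1⟩ := hint u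
  have hfint : ∀ v, Integrable (fun s => K n (s - v)) μ → Integrable (fun s => f s * K n (s - v)) μ := by
    intro v hv
    exact hv.bdd_mul hf.aestronglyMeasurable (c := M) (Filter.Eventually.of_forall fun s => by
      rw [Real.norm_eq_abs]; exact hM s)
  have hft := hfint t hit
  have hfu := hfint u hiu
  set Far : Set ℝ := {s | δ ≤ |s - x₀|} with hFar
  have hFarm : MeasurableSet Far := by
    apply measurableSet_le measurable_const
    exact (measurable_id.sub_const x₀).norm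
  set Ball : Set ℝ := {s | |s - x₀| < ε n} with hBall
  have hBallm : MeasurableSet Ball := by
    apply measurableSet_lt _ measurable_const
    exact (measurable_id.sub_const x₀).norm
  have hBfin : μ Ball ≠ ∞ := by
    intro h
    have : μ.real Ball = 0 := by simp [Measure.real, h]
    rw [this] at hmu
    linarith
  -- pointwise inequality
  have hpt : ∀ s, Ball.indicator (fun _ => gap * κ / ε n) s ≤
      (S + η) * K n (s - t) - f s * K n (s - t) + (f s * K n (s - u) - (I - η) * K n (s - u)) +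
      2 * M * (Far.indicator (fun s => K n (s - t)) s + Far.indicator (fun s => K n (s - u)) s) := by
    intro s
    have k1 := hnn (s - t)
    have k2 := hnn (s - u)
    have hfs := abs_le.1 (hM s)
    by_cases hs : δ ≤ |s - x₀|
    · have hs1 : s ∈ Far := hs
      have hs2 : s ∉ Ball := fun h => by
        have : |s - x₀| < ε n := h
        linarith
      rw [indicator_of_notMem hs2, indicator_of_mem hs1, indicator_of_mem hs1]
      have a1 : 0 ≤ (S + η - f s + 2 * M) * K n (s - t) := mul_nonneg (by linarith) k1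
      have a2 : 0 ≤ (f s - (I - η) + 2 * M) * K n (s - u) := mul_nonneg (by linarith) k2
      nlinarith
    · have hs1 : s ∉ Far := hs
      have hs' : |s - x₀| < δ := not_le.1 hs
      rw [indicator_of_notMem hs1, indicator_of_notMem hs1]
      have b1 := hn1 s (lt_of_lt_of_le hs' (min_le_left _ _))
      have b2 := hn2 s (lt_of_lt_of_le hs' (min_le_right _ _))
      by_cases hB : s ∈ Ball
      · rw [indicator_of_mem hB]
        have c1 := hov' t ht1 s hB
        have c2 := hov' u hu1 s hB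
        have a1 : (S + η - f s) * (κ / ε n) ≤ (S + η - f s) * K n (s - t) :=
          mul_le_mul_of_nonneg_left c1 (by linarith)
        have a2 : (f s - (I - η)) * (κ / ε n) ≤ (f s - (I - η)) * K n (s - u) :=
          mul_le_mul_of_nonneg_left c2 (by linarith)
        have a3 : 0 < κ / ε n := by positivity
        have a4 : gap * κ / ε n = gap * (κ / ε n) := by ring
        rw [a4]
        nlinarith
      · rw [indicator_of_notMem hB]
        have a1 : 0 ≤ (S + η - f s) * K n (s - t) := mul_nonneg (by linarith) k1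
        have a2 : 0 ≤ (f s - (I - η)) * K n (s - u) := mul_nonneg (by linarith) k2
        nlinarith
  have hintL : Integrable (Ball.indicator (fun _ : ℝ => gap * κ / ε n)) μ :=
    (integrable_indicator_iff hBallm).2 (integrableOn_const hBfin)
  have hFt : Integrable (Far.indicator (fun s => K n (s - t))) μ := hit.indicator hFarm
  have hFu : Integrable (Far.indicator (fun s => K n (s - u))) μ := hiu.indicator hFarm
  have hmono := integral_mono hintL
    (((((hit.const_mul (S + η)).sub hft).add (hfu.sub (hiu.const_mul (I - η)))).add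
      ((hFt.add hFu).const_mul (2 * M)))) hpt
  rw [integral_indicator hBallm, setIntegral_const] at hmono
  have hR : ∫ s, ((S + η) * K n (s - t) - f s * K n (s - t) +
      (f s * K n (s - u) - (I - η) * K n (s - u)) +
      2 * M * (Far.indicator (fun s => K n (s - t)) s + Far.indicator (fun s => K n (s - u)) s)) ∂μ =
      (S + η) - (∫ s, f s * K n (s - t) ∂μ) + ((∫ s, f s * K n (s - u) ∂μ) - (I - η)) +
      2 * M * ((∫ s in Far, K n (s - t) ∂μ) + ∫ s in Far, K n (s - u) ∂μ) := by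
    rw [integral_add, integral_add, integral_sub, integral_sub, integral_const_mul,
      integral_const_mul, integral_const_mul, integral_add, integral_indicator hFarm,
      integral_indicator hFarm, hit1, hiu1]
    · ring
    · exact hFt
    · exact hFu
    · exact hfu
    · exact hiu.const_mul _
    · exact hit.const_mul _
    · exact hft
    · exact (hit.const_mul (S + η)).sub hft
    · exact hfu.sub (hiu.const_mul (I - η))
    · exact ((hit.const_mul (S + η)).sub hft).add (hfu.sub (hiu.const_mul (I - η)))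
    · exact (hFt.add hFu).const_mul (2 * M)
  have hR' := hmono.trans (le_of_eq hR)
  have ht3 := htl t ht1
  have hu3 := htl u hu1
  have hL : gap * κ ≤ μ.real Ball • (gap * κ / ε n) := by
    rw [smul_eq_mul]
    calc gap * κ = ε n * (gap * κ / ε n) := by field_simp
      _ ≤ μ.real Ball * (gap * κ / ε n) := mul_le_mul_of_nonneg_right hmu (by positivity)
  have hη' : η * (2 + 4 * M) = gap * κ / 4 := by
    rw [hη]; field_simp
  have hgk : 0 < gap * κ := by positivity
  have h9 : 2 * M * ((∫ s in Far, K n (s - t) ∂μ) + ∫ s in Far, K n (s - u) ∂μ) ≤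
      2 * M * (η + η) := mul_le_mul_of_nonneg_left (add_le_add ht3 hu3) (by positivity)
  nlinarith


/-- A bounded function averaged with a kernel of mass one stays bounded. -/
lemma avg_bdd {f : ℝ → ℝ} {M : ℝ} (hM : ∀ x, |f x| ≤ M)
    {μ : Measure ℝ} {k : ℝ → ℝ} (hk0 : ∀ s, 0 ≤ k s) (hk : Integrable k μ)
    (hk1 : ∫ s, k s ∂μ = 1) : |∫ s, f s * k s ∂μ| ≤ M := by
  rw [← Real.norm_eq_abs]
  calc ‖∫ s, f s * k s ∂μ‖ ≤ ∫ s, M * k s ∂μ := by
        apply norm_integral_le_of_norm_le (hk.const_mul M)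
        refine Filter.Eventually.of_forall fun s => ?_
        rw [Real.norm_eq_abs, abs_mul, abs_of_nonneg (hk0 s)]
        exact mul_le_mul_of_nonneg_right (hM s) (hk0 s)
    _ = M := by rw [integral_const_mul, hk1, mul_one]

/-- Finite limit superior forces continuity: the general statement. -/
lemma unify {ι : Type*} {l : Filter ι} [l.NeBot] {α : ℝ} (hα : 0 < α) {f : ℝ → ℝ}
    {M : ℝ} (hM : ∀ x, |f x| ≤ M) (T : ι → ℝ → ℝ) (μ : ℝ → Measure ℝ)
    (hf : ∀ x₀, AEMeasurable f (μ x₀))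
    (K : ι → ℝ → ℝ) (ε : ι → ℝ)
    (hε : Tendsto ε l (𝓝 0)) (hεp : ∀ᶠ n in l, 0 < ε n)
    (hK0 : ∀ᶠ n in l, ∀ s, 0 ≤ K n s)
    (hKint : ∀ x₀, ∀ᶠ n in l, ∀ t, Integrable (fun s => K n (s - t)) (μ x₀) ∧
      ∫ s, K n (s - t) ∂(μ x₀) = 1)
    (htail : ∀ x₀ D δ η : ℝ, 0 < δ → 0 < η → ∀ᶠ n in l, ∀ t, |t - x₀| ≤ D * ε n →
      ∫ s in {s | δ ≤ |s - x₀|}, K n (s - t) ∂(μ x₀) ≤ η)
    (hover : ∀ D : ℝ, ∃ κ > 0, ∀ᶠ n in l, ∀ v, |v| ≤ D * ε n → κ / ε n ≤ K n v)
    (hμ : ∀ x₀, ∀ᶠ n in l, ε n ≤ (μ x₀).real {s | |s - x₀| < ε n})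
    (hT : ∀ x₀, ∀ᶠ n in l, ∀ t, T n t = ∫ s, f s * K n (s - t) ∂(μ x₀))
    (hlim : limsup (fun n => ENNReal.ofReal (α / ε n) * r α f (T n)) l < ⊤) :
    Continuous f := by
  apply continuous_of_SS_le hM
  intro x₀
  obtain ⟨c, hc1, -⟩ := ENNReal.lt_iff_exists_nnreal_btwn.1 hlim
  have hev := Filter.eventually_lt_of_limsup_lt hc1
  refine key hM x₀ (μ x₀) (hf x₀) K ε hε hεp hK0 (hKint x₀) (htail x₀) ?_ (hμ x₀) ?_
  · intro D
    obtain ⟨κ, hκ, h⟩ := hover (D + 1)
    refine ⟨κ, hκ, ?_⟩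
    filter_upwards [h] with n hn t ht s hs
    apply hn
    have : |s - t| ≤ |s - x₀| + |t - x₀| := by
      rw [abs_sub_comm t x₀]
      exact abs_sub_le _ _ _
    nlinarith
  · refine ⟨c + c / α + 1, ?_⟩
    filter_upwards [hev, hεp, hT x₀, hK0, hKint x₀] with n h1 h2 h3 h4 h5
    have hb : ∀ t, |T n t| ≤ M := by
      intro t
      rw [h3 t]
      exact avg_bdd hM (fun s => h4 _) (h5 t).1 (h5 t).2
    have h6 : ENNReal.ofReal (α / ε n) * r α f (T n) < ENNReal.ofReal (c : ℝ) := by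
      rw [ENNReal.ofReal_coe_nnreal]
      exact h1
    obtain ⟨⟨t, ht1, ht2⟩, ⟨u, hu1, hu2⟩⟩ := approx_points hα hM hb c.2 h2 h6 x₀
    rw [h3] at ht2 hu2
    exact ⟨⟨t, ht1, ht2⟩, ⟨u, hu1, hu2⟩⟩

/-! ### The Gauss-Weierstrass operators -/

lemma W_case {α : ℝ} (hα : 0 < α) {f : ℝ → ℝ} (hf : LebesgueMeasurable f) {M : ℝ} (hM : ∀ x, |f x| ≤ M)
    (hlim : limsup (fun n : ℕ => ENNReal.ofReal (α * Real.sqrt n) * r α f (W n f)) atTop < ⊤) :
    Continuous f := by
  have hπ := Real.pi_pos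
  have hsq : Tendsto (fun n : ℕ => Real.sqrt n) atTop atTop :=
    Real.tendsto_sqrt_atTop.comp tendsto_natCast_atTop_atTop
  have hpos : ∀ᶠ n : ℕ in atTop, 0 < Real.sqrt n := hsq.eventually_gt_atTop 0
  have hgauss : ∀ n : ℕ, 0 < Real.sqrt n → ∀ (b : ℝ), 0 < b →
      ∫ s : ℝ, Real.sqrt (n / Real.pi) * Real.exp (-(n * b) * s ^ 2) = Real.sqrt (1 / b) := by
    intro n hn b hb
    have hn' : (0 : ℝ) < n := Real.sqrt_pos.1 hn
    rw [integral_const_mul, integral_gaussian, ← Real.sqrt_mul (by positivity)]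
    congr 1
    field_simp
  have hgi : ∀ n : ℕ, 0 < Real.sqrt n → ∀ (b : ℝ), 0 < b →
      Integrable (fun s : ℝ => Real.sqrt (n / Real.pi) * Real.exp (-(n * b) * s ^ 2)) := by
    intro n hn b hb
    have hn' : (0 : ℝ) < n := Real.sqrt_pos.1 hn
    exact (integrable_exp_neg_mul_sq (by positivity)).const_mul _
  have hinv : Tendsto (fun n : ℕ => 1 / Real.sqrt n) atTop (𝓝 0) := by
    simp_rw [one_div]
    exact tendsto_inv_atTop_zero.comp hsq
  refine unify (l := atTop) hα hM (fun n => W n f) (fun _ => volume) (fun _ => hf)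
    (fun n s => Real.sqrt (n / Real.pi) * Real.exp (-n * s ^ 2)) (fun n : ℕ => 1 / Real.sqrt n)
    ?_ ?_ ?_ ?_ ?_ ?_ ?_ ?_ ?_
  · exact hinv
  · filter_upwards [hpos] with n hn
    positivity
  · exact Filter.Eventually.of_forall fun n s => by positivity
  · intro x₀
    filter_upwards [hpos] with n hn t
    have h1 := hgi n hn 1 one_pos
    have h2 := hgauss n hn 1 one_pos
    simp only [mul_one, div_one, Real.sqrt_one] at h1 h2
    refine ⟨h1.comp_sub_right t, ?_⟩
    rw [integral_sub_right_eq_self (fun s : ℝ => Real.sqrt (n / Real.pi) * Real.exp (-n * s ^ 2)) t]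
    exact h2
  · intro x₀ D δ η hδ hη
    have hlim1 : Tendsto (fun n : ℕ => Real.sqrt 2 * Real.exp (-(δ ^ 2 / 8) * n)) atTop (𝓝 0) := by
      have : Tendsto (fun n : ℕ => Real.exp (-(δ ^ 2 / 8) * n)) atTop (𝓝 0) := by
        apply Real.tendsto_exp_atBot.comp
        exact Tendsto.const_mul_atTop_of_neg (by
          have : 0 < δ ^ 2 := by positivity
          linarith) tendsto_natCast_atTop_atTop
      simpa using this.const_mul (Real.sqrt 2)
    have hlim2 : Tendsto (fun n : ℕ => D * (1 / Real.sqrt n)) atTop (𝓝 0) := by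
      simpa using hinv.const_mul D
    filter_upwards [hpos, hlim1.eventually (gt_mem_nhds hη),
      hlim2.eventually (gt_mem_nhds (show 0 < δ / 2 by positivity))] with n hn h1 h2 t ht
    have hn' : (0 : ℝ) < n := Real.sqrt_pos.1 hn
    have ht' : |t - x₀| < δ / 2 := lt_of_le_of_lt ht h2
    refine le_trans ?_ h1.le
    have hm : MeasurableSet {s : ℝ | δ ≤ |s - x₀|} := by
      apply measurableSet_le measurable_const
      exact (measurable_id.sub_const x₀).norm
    have hg := (hgi n hn (1 / 2) (by norm_num)).comp_sub_right t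
    have hval : ∫ s : ℝ, Real.sqrt (n / Real.pi) * Real.exp (-(n * (1 / 2)) * (s - t) ^ 2) =
        Real.sqrt 2 := by
      rw [integral_sub_right_eq_self (fun s : ℝ => Real.sqrt (n / Real.pi) *
        Real.exp (-(n * (1 / 2)) * s ^ 2)) t, hgauss n hn (1 / 2) (by norm_num)]
      norm_num
    calc ∫ s in {s : ℝ | δ ≤ |s - x₀|}, Real.sqrt (n / Real.pi) * Real.exp (-n * (s - t) ^ 2)
        ≤ ∫ s in {s : ℝ | δ ≤ |s - x₀|}, Real.exp (-(δ ^ 2 / 8) * n) *
          (Real.sqrt (n / Real.pi) * Real.exp (-(n * (1 / 2)) * (s - t) ^ 2)) := by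
          apply setIntegral_mono_on _ _ hm
          · intro s hs
            have hs' : δ ≤ |s - x₀| := hs
            have h3 : δ / 2 ≤ |s - t| := by
              have : |s - x₀| ≤ |s - t| + |t - x₀| := abs_sub_le _ _ _
              linarith
            have h4 : (δ / 2) ^ 2 ≤ (s - t) ^ 2 := by
              rw [← sq_abs (s - t)]
              exact pow_le_pow_left₀ (by positivity) h3 2
            rw [mul_left_comm, ← Real.exp_add]
            apply mul_le_mul_of_nonneg_left _ (Real.sqrt_nonneg _)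
            apply Real.exp_le_exp.2
            nlinarith
          · have h1 := (hgi n hn 1 one_pos).comp_sub_right t
            simp only [mul_one] at h1
            exact h1.integrableOn
          · exact (hg.const_mul _).integrableOn
      _ ≤ ∫ s : ℝ, Real.exp (-(δ ^ 2 / 8) * n) *
          (Real.sqrt (n / Real.pi) * Real.exp (-(n * (1 / 2)) * (s - t) ^ 2)) := by
          apply setIntegral_le_integral (hg.const_mul _)
          exact Filter.Eventually.of_forall fun s => by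
            show (0 : ℝ) ≤ _
            positivity
      _ = Real.sqrt 2 * Real.exp (-(δ ^ 2 / 8) * n) := by
          rw [integral_const_mul, hval, mul_comm]
  · intro D
    refine ⟨Real.exp (-D ^ 2) / Real.sqrt Real.pi, by positivity, ?_⟩
    filter_upwards [hpos] with n hn v hv
    have hn' : (0 : ℝ) < n := Real.sqrt_pos.1 hn
    have h1 : (n : ℝ) * v ^ 2 ≤ D ^ 2 := by
      have h2 : Real.sqrt n * |v| ≤ D := by
        calc Real.sqrt n * |v| ≤ Real.sqrt n * (D * (1 / Real.sqrt n)) :=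
              mul_le_mul_of_nonneg_left hv hn.le
          _ = D := by field_simp
      have h3 : (Real.sqrt n * |v|) ^ 2 ≤ D ^ 2 := pow_le_pow_left₀ (by positivity) h2 2
      rwa [mul_pow, sq_abs, Real.sq_sqrt hn'.le] at h3
    calc Real.exp (-D ^ 2) / Real.sqrt Real.pi / (1 / Real.sqrt n)
        = Real.sqrt (n / Real.pi) * Real.exp (-D ^ 2) := by
          rw [Real.sqrt_div' _ hπ.le]
          field_simp
      _ ≤ Real.sqrt (n / Real.pi) * Real.exp (-n * v ^ 2) := by
          apply mul_le_mul_of_nonneg_left _ (Real.sqrt_nonneg _)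
          apply Real.exp_le_exp.2
          linarith
  · intro x₀
    filter_upwards [hpos] with n hn
    have : {s : ℝ | |s - x₀| < 1 / Real.sqrt n} = Metric.ball x₀ (1 / Real.sqrt n) := by
      ext s; simp [Real.dist_eq]
    rw [this, Real.volume_real_ball (by positivity)]
    have : 0 < 1 / Real.sqrt n := by positivity
    linarith
  · intro x₀
    refine Filter.Eventually.of_forall fun n t => ?_
    simp only [W]
    rw [← integral_const_mul]
    congr 1
    funext s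
    ring
  · have : (fun n : ℕ => ENNReal.ofReal (α / (1 / Real.sqrt n)) * r α f (W n f)) =
        fun n : ℕ => ENNReal.ofReal (α * Real.sqrt n) * r α f (W n f) := by
      funext n
      rw [div_div_eq_mul_div, div_one]
    rw [this]
    exact hlim


/-! ### The periodic operators -/

/-- The tail of a periodic kernel. -/
lemma far_cos {δ' x₀ t s : ℝ} (hδ' : 0 < δ') (hπ : δ' ≤ Real.pi) (ht : |t - x₀| ≤ δ' / 2)
    (hs1 : |s - x₀| ≤ Real.pi) (hs2 : δ' ≤ |s - x₀|) :
    Real.cos (s - t) ≤ Real.cos (δ' / 2) := by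
  have h1 : δ' / 2 ≤ |s - t| := by
    have : |s - x₀| ≤ |s - t| + |t - x₀| := abs_sub_le _ _ _
    linarith
  have h2 : |s - t| ≤ Real.pi + δ' / 2 := by
    have : |s - t| ≤ |s - x₀| + |x₀ - t| := abs_sub_le _ _ _
    rw [abs_sub_comm x₀ t] at this
    linarith
  rw [← Real.cos_abs (s - t)]
  rcases le_or_gt |s - t| Real.pi with h3 | h3
  · exact Real.cos_le_cos_of_nonneg_of_le_pi (by positivity) h3 h1
  · have h4 : Real.cos |s - t| = Real.cos (2 * Real.pi - |s - t|) := by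
      rw [Real.cos_two_pi_sub]
    rw [h4]
    apply Real.cos_le_cos_of_nonneg_of_le_pi (by positivity) (by linarith) (by linarith)

lemma periodic_case {ι : Type*} {l : Filter ι} [l.NeBot] {α : ℝ} (hα : 0 < α) {f : ℝ → ℝ}
    (hf : LebesgueMeasurable f) {M : ℝ} (hM : ∀ x, |f x| ≤ M)
    (hper : Function.Periodic f (2 * Real.pi)) (T : ι → ℝ → ℝ) (K : ι → ℝ → ℝ) (ε : ι → ℝ)
    (hε : Tendsto ε l (𝓝 0)) (hεp : ∀ᶠ n in l, 0 < ε n)
    (hK0 : ∀ᶠ n in l, ∀ s, 0 ≤ K n s)
    (hKc : ∀ᶠ n in l, Continuous (K n))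
    (hKe : ∀ n s, K n (-s) = K n s)
    (hKp : ∀ n, Function.Periodic (K n) (2 * Real.pi))
    (hKint : ∀ᶠ n in l, ∫ s in (-Real.pi)..Real.pi, K n s = 1)
    (hKm : ∀ᶠ n in l, ∀ s δ, Real.cos s ≤ Real.cos δ → K n s ≤ K n δ)
    (hKt : ∀ δ, 0 < δ → δ ≤ Real.pi → Tendsto (fun n => K n δ) l (𝓝 0))
    (hover : ∀ D : ℝ, ∃ κ > 0, ∀ᶠ n in l, ∀ v, |v| ≤ D * ε n → κ / ε n ≤ K n v)
    (hT : ∀ᶠ n in l, ∀ t, T n t = ∫ s in (-Real.pi)..Real.pi, f (t - s) * K n s)
    (hlim : limsup (fun n => ENNReal.ofReal (α / ε n) * r α f (T n)) l < ⊤) :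
    Continuous f := by
  have hπ := Real.pi_pos
  set μ : ℝ → Measure ℝ := fun x₀ => volume.restrict (Ioc (x₀ - Real.pi) (x₀ + Real.pi)) with hμ
  have hconv : ∀ (x₀ : ℝ) (g : ℝ → ℝ), ∫ s, g s ∂(μ x₀) = ∫ s in (x₀ - Real.pi)..(x₀ + Real.pi), g s := by
    intro x₀ g
    rw [intervalIntegral.integral_of_le (by linarith)]
  refine unify hα hM T μ (fun x₀ => AEMeasurable.restrict hf) K ε hε hεp hK0 ?_ ?_ hover ?_ ?_ hlim
  · intro x₀
    filter_upwards [hKc, hKint] with n hc hi t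
    have hc' : Continuous fun s => K n (s - t) := hc.comp (continuous_id.sub continuous_const)
    refine ⟨?_, ?_⟩
    · exact hc'.integrableOn_Ioc
    · rw [hconv, intervalIntegral.integral_comp_sub_right (fun s => K n s) t]
      have h1 := (hKp n).intervalIntegral_add_eq (x₀ - Real.pi - t) (-Real.pi)
      rw [show x₀ - Real.pi - t + 2 * Real.pi = x₀ + Real.pi - t by ring,
        show -Real.pi + 2 * Real.pi = Real.pi by ring] at h1
      rw [h1, hi]
  · intro x₀ D δ η hδ hη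
    set δ' := min δ Real.pi with hδ'
    have hδ'0 : 0 < δ' := lt_min hδ hπ
    have hlim1 : Tendsto (fun n => K n (δ' / 2) * (2 * Real.pi)) l (𝓝 0) := by
      have := (hKt (δ' / 2) (by positivity) (by
        have := min_le_right δ Real.pi
        linarith)).mul_const (2 * Real.pi)
      simpa using this
    have hlim2 : Tendsto (fun n => D * ε n) l (𝓝 0) := by
      simpa using hε.const_mul D
    filter_upwards [hKc, hK0, hKm, hlim1.eventually (gt_mem_nhds hη),
      hlim2.eventually (gt_mem_nhds (show 0 < δ' / 2 by positivity))] with n hc h0 hm h1 h2 t ht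
    have ht' : |t - x₀| ≤ δ' / 2 := (lt_of_le_of_lt ht h2).le
    have hc' : Continuous fun s => K n (s - t) := hc.comp (continuous_id.sub continuous_const)
    refine le_trans ?_ h1.le
    have hmeas : MeasurableSet {s : ℝ | δ ≤ |s - x₀|} := by
      apply measurableSet_le measurable_const
      exact (measurable_id.sub_const x₀).norm
    rw [hμ]
    simp only
    rw [Measure.restrict_restrict hmeas]
    have hfin : volume ({s : ℝ | δ ≤ |s - x₀|} ∩ Ioc (x₀ - Real.pi) (x₀ + Real.pi)) ≠ ∞ := by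
      refine ne_top_of_le_ne_top ?_ (measure_mono inter_subset_right)
      simp
    calc ∫ s in {s : ℝ | δ ≤ |s - x₀|} ∩ Ioc (x₀ - Real.pi) (x₀ + Real.pi), K n (s - t)
        ≤ ∫ s in {s : ℝ | δ ≤ |s - x₀|} ∩ Ioc (x₀ - Real.pi) (x₀ + Real.pi), K n (δ' / 2) := by
          apply setIntegral_mono_on _ _ (hmeas.inter measurableSet_Ioc)
          · rintro s ⟨hs1, hs2⟩
            apply hm
            have hs1' : δ ≤ |s - x₀| := hs1
            apply far_cos hδ'0 (min_le_right _ _) ht' _ ((min_le_left _ _).trans hs1')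
            rw [abs_le]
            constructor <;> linarith [hs2.1, hs2.2]
          · exact hc'.integrableOn_Ioc.mono_set inter_subset_right
          · exact integrableOn_const hfin
      _ = volume.real ({s : ℝ | δ ≤ |s - x₀|} ∩ Ioc (x₀ - Real.pi) (x₀ + Real.pi)) *
            K n (δ' / 2) := by
          rw [setIntegral_const, smul_eq_mul]
      _ ≤ (2 * Real.pi) * K n (δ' / 2) := by
          apply mul_le_mul_of_nonneg_right _ (h0 _)
          have h3 : volume.real ({s : ℝ | δ ≤ |s - x₀|} ∩ Ioc (x₀ - Real.pi) (x₀ + Real.pi)) ≤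
              volume.real (Ioc (x₀ - Real.pi) (x₀ + Real.pi)) :=
            measureReal_mono inter_subset_right (by simp)
          refine h3.trans (le_of_eq ?_)
          rw [Real.volume_real_Ioc_of_le (by linarith)]
          ring
      _ = K n (δ' / 2) * (2 * Real.pi) := mul_comm _ _
  · intro x₀
    filter_upwards [hεp, hε.eventually (gt_mem_nhds hπ)] with n hn hn2
    have h1 : {s : ℝ | |s - x₀| < ε n} = Metric.ball x₀ (ε n) := by
      ext s; simp [Real.dist_eq]
    have h2 : Metric.ball x₀ (ε n) ∩ Ioc (x₀ - Real.pi) (x₀ + Real.pi) = Metric.ball x₀ (ε n) := by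
      apply inter_eq_left.2
      intro s hs
      rw [Metric.mem_ball, Real.dist_eq, abs_lt] at hs
      exact ⟨by linarith [hs.1], by linarith [hs.2]⟩
    rw [h1, hμ]
    simp only [Measure.real]
    rw [Measure.restrict_apply Metric.isOpen_ball.measurableSet, h2]
    change ε n ≤ volume.real (Metric.ball x₀ (ε n))
    rw [Real.volume_real_ball hn.le]
    linarith
  · intro x₀
    filter_upwards [hT] with n h t
    rw [h t, hconv]
    have h1 : ∫ s in (-Real.pi)..Real.pi, f (t - s) * K n s =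
        ∫ s in (-Real.pi)..Real.pi, (fun v => f v * K n (v - t)) (t - s) := by
      congr 1
      funext s
      simp only
      rw [show t - s - t = -s by ring, hKe]
    rw [h1, intervalIntegral.integral_comp_sub_left (fun v => f v * K n (v - t)) t]
    have hp : Function.Periodic (fun v => f v * K n (v - t)) (2 * Real.pi) := by
      intro v
      simp only
      rw [hper v, show v + 2 * Real.pi - t = v - t + 2 * Real.pi by ring, hKp n]
    have h2 := hp.intervalIntegral_add_eq (t - Real.pi) (x₀ - Real.pi)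
    rw [show t - Real.pi + 2 * Real.pi = t - -Real.pi by ring,
      show x₀ - Real.pi + 2 * Real.pi = x₀ + Real.pi by ring] at h2
    exact h2


/-! ### The Abel-Poisson operators -/

lemma den_pos {ρ : ℝ} (h0 : 0 < ρ) (h1 : ρ < 1) (s : ℝ) :
    0 < 1 - 2 * ρ * Real.cos s + ρ ^ 2 := by
  have := Real.cos_le_one s
  nlinarith [mul_pos (sub_pos.2 h1) (sub_pos.2 h1)]

lemma poisson_mass {ρ : ℝ} (h0 : 0 < ρ) (h1 : ρ < 1) :
    ∫ s in (-Real.pi)..Real.pi,
      1 / (2 * Real.pi) * ((1 - ρ ^ 2) / (1 - 2 * ρ * Real.cos s + ρ ^ 2)) = 1 := by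
  have hπ := Real.pi_pos
  have hw : (ρ : ℂ) ∈ Metric.ball (0 : ℂ) 1 := by
    rw [mem_ball_zero_iff, Complex.norm_real, Real.norm_eq_abs, abs_of_pos h0]
    exact h1
  have h2 := DiffContOnCl.circleAverage_poissonKernel_smul' (f := fun _ : ℂ => (1 : ℂ)) (c := 0)
    (R := 1) diffContOnCl_const hw
  rw [Real.circleAverage_def] at h2
  have h3 : ∀ θ : ℝ, ((‖circleMap 0 1 θ - 0‖ ^ 2 - ‖(ρ : ℂ) - 0‖ ^ 2) /
      ‖(circleMap 0 1 θ - 0) - ((ρ : ℂ) - 0)‖ ^ 2) • (1 : ℂ) =
      (((1 - ρ ^ 2) / (1 - 2 * ρ * Real.cos θ + ρ ^ 2) : ℝ) : ℂ) := by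
    intro θ
    have e1 : ‖circleMap 0 1 θ - 0‖ ^ 2 = 1 := by simp
    have e2 : ‖(ρ : ℂ) - 0‖ ^ 2 = ρ ^ 2 := by simp
    have e3 : ‖(circleMap 0 1 θ - 0) - ((ρ : ℂ) - 0)‖ ^ 2 = 1 - 2 * ρ * Real.cos θ + ρ ^ 2 := by
      rw [← Complex.normSq_eq_norm_sq, Complex.normSq_apply]
      simp only [circleMap, sub_zero, zero_add, Complex.ofReal_one, one_mul, Complex.sub_re,
        Complex.sub_im, Complex.exp_ofReal_mul_I_re, Complex.exp_ofReal_mul_I_im,
        Complex.ofReal_re, Complex.ofReal_im]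
      have := Real.sin_sq_add_cos_sq θ
      nlinarith
    rw [e1, e2, e3, Complex.real_smul, mul_one]
  simp only [h3] at h2
  rw [intervalIntegral.integral_ofReal, Complex.real_smul, ← Complex.ofReal_mul] at h2
  have h4 : (2 * Real.pi)⁻¹ * ∫ θ in (0 : ℝ)..(2 * Real.pi),
      (1 - ρ ^ 2) / (1 - 2 * ρ * Real.cos θ + ρ ^ 2) = 1 := by exact_mod_cast h2
  have hper : Function.Periodic (fun θ : ℝ => (1 - ρ ^ 2) / (1 - 2 * ρ * Real.cos θ + ρ ^ 2))
      (2 * Real.pi) := by
    intro θ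
    simp only [Real.cos_add_two_pi]
  have h5 := hper.intervalIntegral_add_eq (-Real.pi) 0
  rw [show -Real.pi + 2 * Real.pi = Real.pi by ring, zero_add] at h5
  rw [intervalIntegral.integral_const_mul, h5, one_div]
  exact h4

lemma P_case {α : ℝ} (hα : 0 < α) {f : ℝ → ℝ} (hf : LebesgueMeasurable f) {M : ℝ} (hM : ∀ x, |f x| ≤ M)
    (hper : Function.Periodic f (2 * Real.pi))
    (hlim : limsup (fun ρ : ℝ => ENNReal.ofReal (α / (1 - ρ)) * r α f (P ρ f)) (𝓝[<] 1) < ⊤) :
    Continuous f := by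
  have hπ := Real.pi_pos
  have hev : ∀ᶠ ρ : ℝ in 𝓝[<] 1, 0 < ρ ∧ ρ < 1 := Ioo_mem_nhdsLT zero_lt_one
  refine periodic_case (l := 𝓝[<] (1 : ℝ)) hα hf hM hper (fun ρ => P ρ f)
    (fun ρ s => 1 / (2 * Real.pi) * ((1 - ρ ^ 2) / (1 - 2 * ρ * Real.cos s + ρ ^ 2)))
    (fun ρ : ℝ => 1 - ρ) ?_ ?_ ?_ ?_ ?_ ?_ ?_ ?_ ?_ ?_ ?_ hlim
  · have : Tendsto (fun ρ : ℝ => 1 - ρ) (𝓝 1) (𝓝 (1 - 1)) := (continuous_const.sub continuous_id).tendsto 1
    rw [sub_self] at this
    exact this.mono_left nhdsWithin_le_nhds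
  · filter_upwards [hev] with ρ h
    linarith [h.2]
  · filter_upwards [hev] with ρ h s
    have := den_pos h.1 h.2 s
    have h2 : 0 ≤ 1 - ρ ^ 2 := by nlinarith [h.1, h.2]
    positivity
  · filter_upwards [hev] with ρ h
    apply continuous_const.mul
    apply Continuous.div continuous_const
    · exact (continuous_const.sub (continuous_const.mul Real.continuous_cos)).add continuous_const
    · intro s
      exact (den_pos h.1 h.2 s).ne'
  · intro ρ s
    simp only [Real.cos_neg]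
  · intro ρ s
    simp only [Real.cos_add_two_pi]
  · filter_upwards [hev] with ρ h
    exact poisson_mass h.1 h.2
  · filter_upwards [hev] with ρ h s δ hs
    apply mul_le_mul_of_nonneg_left _ (by positivity)
    apply div_le_div_of_nonneg_left _ (den_pos h.1 h.2 δ)
    · nlinarith [h.1]
    · nlinarith [h.1, h.2]
  · intro δ hδ0 hδπ
    have hc : Real.cos δ < 1 := by
      have := Real.cos_lt_cos_of_nonneg_of_le_pi (le_refl 0) hδπ hδ0
      rwa [Real.cos_zero] at this
    have h1 : ContinuousAt (fun ρ : ℝ =>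
        1 / (2 * Real.pi) * ((1 - ρ ^ 2) / (1 - 2 * ρ * Real.cos δ + ρ ^ 2))) 1 := by
      apply continuousAt_const.mul
      apply ContinuousAt.div
      · fun_prop
      · fun_prop
      · have : (1 : ℝ) - 2 * 1 * Real.cos δ + 1 ^ 2 = 2 * (1 - Real.cos δ) := by ring
        rw [this]
        have : 0 < 1 - Real.cos δ := by linarith
        positivity
    have h2 := h1.tendsto
    simp only [one_pow, sub_self, zero_div, mul_zero] at h2
    exact h2.mono_left nhdsWithin_le_nhds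
  · intro D
    refine ⟨1 / (2 * Real.pi * (1 + D ^ 2)), by positivity, ?_⟩
    filter_upwards [hev] with ρ h v hv
    have hd := den_pos h.1 h.2 v
    have h1 : 0 < 1 - ρ := by linarith [h.2]
    have h2 : v ^ 2 ≤ D ^ 2 * (1 - ρ) ^ 2 := by
      have : |v| ^ 2 ≤ (D * (1 - ρ)) ^ 2 := pow_le_pow_left₀ (abs_nonneg _) hv 2
      rwa [sq_abs, mul_pow] at this
    have h3 : 1 - 2 * ρ * Real.cos v + ρ ^ 2 ≤ (1 - ρ) ^ 2 * (1 + D ^ 2) := by
      have h4 := Real.one_sub_sq_div_two_le_cos (x := v)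
      have h5 : ρ * (1 - Real.cos v) ≤ 1 * (v ^ 2 / 2) :=
        mul_le_mul h.2.le (by linarith) (by linarith [Real.cos_le_one v]) zero_le_one
      nlinarith
    calc 1 / (2 * Real.pi * (1 + D ^ 2)) / (1 - ρ)
        = 1 / (2 * Real.pi) * ((1 - ρ) / ((1 - ρ) ^ 2 * (1 + D ^ 2))) := by
          field_simp
      _ ≤ 1 / (2 * Real.pi) * ((1 - ρ ^ 2) / (1 - 2 * ρ * Real.cos v + ρ ^ 2)) := by
          apply mul_le_mul_of_nonneg_left _ (by positivity)
          apply div_le_div₀ _ _ hd h3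
          · nlinarith [h.1]
          · nlinarith [h.1]
  · refine Filter.Eventually.of_forall fun ρ t => ?_
    simp only [P]
    rw [← intervalIntegral.integral_const_mul]
    congr 1
    funext s
    ring

/-! ### The de la Vallée-Poussin operators -/

lemma V_coeff (n : ℕ) : (n.factorial : ℝ) ^ 2 / (2 * Real.pi * ((2 * n).factorial : ℝ)) =
    1 / (2 * Real.pi * n.centralBinom) := by
  have h1 : (n.centralBinom : ℝ) * n.factorial * n.factorial = ((2 * n).factorial : ℝ) := by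
    have := Nat.choose_mul_factorial_mul_factorial (show n ≤ 2 * n by omega)
    rw [show 2 * n - n = n by omega] at this
    rw [Nat.centralBinom_eq_two_mul_choose]
    exact_mod_cast this
  have h2 : (0 : ℝ) < n.factorial := by positivity
  have h3 : (0 : ℝ) < n.centralBinom := by exact_mod_cast n.centralBinom_pos
  rw [← h1]
  field_simp

lemma V_kernel (n : ℕ) (s : ℝ) :
    (2 * Real.cos (s / 2)) ^ (2 * n) = (2 + 2 * Real.cos s) ^ n := by
  rw [pow_mul]
  congr 1
  have := Real.cos_sq (s / 2)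
  rw [show 2 * (s / 2) = s by ring] at this
  rw [mul_pow, this]
  ring

lemma prod_central (n : ℕ) : ∏ i ∈ Finset.range n, ((2 * (i : ℝ) + 1) / (2 * i + 2)) =
    n.centralBinom / 4 ^ n := by
  induction n with
  | zero => simp
  | succ n ih =>
    rw [Finset.prod_range_succ, ih]
    have h1 : ((n : ℝ) + 1) * (n + 1).centralBinom = 2 * (2 * n + 1) * n.centralBinom := by
      exact_mod_cast Nat.succ_mul_centralBinom_succ n
    have h2 : ((n + 1).centralBinom : ℝ) = 2 * (2 * n + 1) * n.centralBinom / (n + 1) := by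
      rw [eq_div_iff (by positivity), ← h1]
      ring
    rw [h2, pow_succ]
    field_simp
    ring

lemma V_mass (n : ℕ) :
    ∫ s in (-Real.pi)..Real.pi, (2 + 2 * Real.cos s) ^ n = 2 * Real.pi * n.centralBinom := by
  have h1 : ∫ s in (-Real.pi)..Real.pi, (2 + 2 * Real.cos s) ^ n =
      ∫ s in (-Real.pi)..Real.pi, (fun u => (2 * Real.cos u) ^ (2 * n)) (s / 2) := by
    congr 1
    funext s
    simp only
    rw [V_kernel]
  rw [h1, intervalIntegral.integral_comp_div (fun u => (2 * Real.cos u) ^ (2 * n)) two_ne_zero]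
  have h2 : ∫ u in (-Real.pi / 2)..(Real.pi / 2), (2 * Real.cos u) ^ (2 * n) =
      ∫ u in (-Real.pi / 2)..(Real.pi / 2),
        (fun v => (4 : ℝ) ^ n * Real.sin v ^ (2 * n)) (u + Real.pi / 2) := by
    congr 1
    funext u
    simp only
    rw [Real.sin_add_pi_div_two, mul_pow, pow_mul 2]
    norm_num
  rw [h2, intervalIntegral.integral_comp_add_right
    (fun v => (4 : ℝ) ^ n * Real.sin v ^ (2 * n)) (Real.pi / 2),
    show -Real.pi / 2 + Real.pi / 2 = 0 by ring, show Real.pi / 2 + Real.pi / 2 = Real.pi by ring,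
    intervalIntegral.integral_const_mul, integral_sin_pow_even, prod_central, smul_eq_mul]
  field_simp

lemma central_le (n : ℕ) : (n.centralBinom : ℝ) ^ 2 * (2 * n + 1) ≤ 16 ^ n := by
  induction n with
  | zero => simp
  | succ n ih =>
    have h1 : ((n : ℝ) + 1) * (n + 1).centralBinom = 2 * (2 * n + 1) * n.centralBinom := by
      exact_mod_cast Nat.succ_mul_centralBinom_succ n
    have h2 : ((n : ℝ) + 1) ^ 2 * (((n + 1).centralBinom : ℝ) ^ 2 * (2 * (n + 1) + 1)) ≤
        ((n : ℝ) + 1) ^ 2 * 16 ^ (n + 1) := by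
      calc ((n : ℝ) + 1) ^ 2 * (((n + 1).centralBinom : ℝ) ^ 2 * (2 * (n + 1) + 1))
          = (((n : ℝ) + 1) * (n + 1).centralBinom) ^ 2 * (2 * (n + 1) + 1) := by ring
        _ = (4 * (2 * n + 1) * (2 * n + 3)) * ((n.centralBinom : ℝ) ^ 2 * (2 * n + 1)) := by
            rw [h1]; ring
        _ ≤ (4 * (2 * n + 1) * (2 * n + 3)) * 16 ^ n :=
            mul_le_mul_of_nonneg_left ih (by positivity)
        _ ≤ (((n : ℝ) + 1) ^ 2 * 16) * 16 ^ n := by
            apply mul_le_mul_of_nonneg_right _ (by positivity)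
            nlinarith
        _ = ((n : ℝ) + 1) ^ 2 * 16 ^ (n + 1) := by ring
    have h3 := le_of_mul_le_mul_left h2 (by positivity)
    push_cast
    exact h3

lemma central_le' (n : ℕ) : (n.centralBinom : ℝ) * Real.sqrt n ≤ 4 ^ n := by
  have h1 := central_le n
  have h2 : ((n.centralBinom : ℝ) * Real.sqrt n) ^ 2 ≤ (4 ^ n) ^ 2 := by
    rw [mul_pow, Real.sq_sqrt (by positivity), ← pow_mul, mul_comm n 2, pow_mul]
    norm_num
    have h3 : (n.centralBinom : ℝ) ^ 2 * n ≤ (n.centralBinom : ℝ) ^ 2 * (2 * n + 1) :=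
      mul_le_mul_of_nonneg_left (by
        have : (0 : ℝ) ≤ n := by positivity
        linarith) (by positivity)
    linarith
  exact le_of_sq_le_sq (by simpa using h2) (by positivity)

lemma exp_le_one_sub {y : ℝ} (h0 : 0 ≤ y) (h1 : y ≤ 1 / 2) : Real.exp (-(2 * y)) ≤ 1 - y := by
  rw [Real.exp_neg]
  have h2 := Real.add_one_le_exp (2 * y)
  have h3 : 0 < 2 * y + 1 := by linarith
  calc (Real.exp (2 * y))⁻¹ ≤ (2 * y + 1)⁻¹ := inv_anti₀ h3 h2
    _ ≤ 1 - y := by
      rw [inv_le_iff_one_le_mul₀ h3]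
      nlinarith

lemma V_case {α : ℝ} (hα : 0 < α) {f : ℝ → ℝ} (hf : LebesgueMeasurable f) {M : ℝ} (hM : ∀ x, |f x| ≤ M)
    (hper : Function.Periodic f (2 * Real.pi))
    (hlim : limsup (fun n : ℕ => ENNReal.ofReal (α * Real.sqrt n) * r α f (V n f)) atTop < ⊤) :
    Continuous f := by
  have hπ := Real.pi_pos
  have hsq : Tendsto (fun n : ℕ => Real.sqrt n) atTop atTop :=
    Real.tendsto_sqrt_atTop.comp tendsto_natCast_atTop_atTop
  have hpos : ∀ᶠ n : ℕ in atTop, 0 < Real.sqrt n := hsq.eventually_gt_atTop 0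
  have hinv : Tendsto (fun n : ℕ => 1 / Real.sqrt n) atTop (𝓝 0) := by
    simp_rw [one_div]
    exact tendsto_inv_atTop_zero.comp hsq
  have hcb : ∀ n : ℕ, (0 : ℝ) < n.centralBinom := fun n => by exact_mod_cast n.centralBinom_pos
  have hcos : ∀ s : ℝ, 0 ≤ 2 + 2 * Real.cos s := fun s => by linarith [Real.neg_one_le_cos s]
  refine periodic_case (l := atTop) hα hf hM hper (fun n => V n f)
    (fun n s => 1 / (2 * Real.pi * n.centralBinom) * (2 + 2 * Real.cos s) ^ n)
    (fun n : ℕ => 1 / Real.sqrt n) hinv ?_ ?_ ?_ ?_ ?_ ?_ ?_ ?_ ?_ ?_ ?_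
  · filter_upwards [hpos] with n hn
    positivity
  · refine Filter.Eventually.of_forall fun n s => ?_
    have := hcos s
    have := hcb n
    positivity
  · refine Filter.Eventually.of_forall fun n => ?_
    exact continuous_const.mul
      ((continuous_const.add (continuous_const.mul Real.continuous_cos)).pow n)
  · intro n s
    simp only [Real.cos_neg]
  · intro n s
    simp only [Real.cos_add_two_pi]
  · refine Filter.Eventually.of_forall fun n => ?_
    rw [intervalIntegral.integral_const_mul, V_mass]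
    have := hcb n
    field_simp
  · refine Filter.Eventually.of_forall fun n s δ h => ?_
    have := hcb n
    apply mul_le_mul_of_nonneg_left _ (by positivity)
    exact pow_le_pow_left₀ (hcos s) (by linarith) n
  · intro δ hδ0 hδπ
    have hc : Real.cos δ < 1 := by
      have := Real.cos_lt_cos_of_nonneg_of_le_pi (le_refl 0) hδπ hδ0
      rwa [Real.cos_zero] at this
    set q : ℝ := (1 + Real.cos δ) / 2 with hq
    have hq0 : 0 ≤ q := by
      have := hcos δ
      rw [hq]; linarith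
    have hq1 : q < 1 := by rw [hq]; linarith
    have h1 : Tendsto (fun n : ℕ => (n : ℝ) * q ^ n) atTop (𝓝 0) :=
      tendsto_self_mul_const_pow_of_lt_one hq0 hq1
    refine squeeze_zero' (Filter.Eventually.of_forall fun n => ?_) ?_ h1
    · have := hcos δ
      have := hcb n
      positivity
    · filter_upwards [eventually_gt_atTop 0] with n hn
      have h2 : (4 : ℝ) ^ n ≤ 2 * n * n.centralBinom := by
        exact_mod_cast Nat.four_pow_le_two_mul_self_mul_centralBinom n hn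
      have h3 : (2 + 2 * Real.cos δ) = 4 * q := by rw [hq]; ring
      rw [h3, mul_pow]
      have h4 := hcb n
      calc 1 / (2 * Real.pi * n.centralBinom) * (4 ^ n * q ^ n)
          ≤ 1 / (2 * Real.pi * n.centralBinom) * ((2 * n * n.centralBinom) * q ^ n) := by
            apply mul_le_mul_of_nonneg_left _ (by positivity)
            exact mul_le_mul_of_nonneg_right h2 (by positivity)
        _ = (1 / Real.pi) * ((n : ℝ) * q ^ n) := by field_simp
        _ ≤ 1 * ((n : ℝ) * q ^ n) := by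
            apply mul_le_mul_of_nonneg_right _ (by positivity)
            rw [div_le_one hπ]
            linarith [Real.pi_gt_three]
        _ = (n : ℝ) * q ^ n := one_mul _
  · intro D
    refine ⟨Real.exp (-(D ^ 2 / 2)) / (2 * Real.pi), by positivity, ?_⟩
    filter_upwards [hpos, (tendsto_natCast_atTop_atTop (R := ℝ)).eventually_ge_atTop (D ^ 2)]
      with n hn hnD v hv
    have hn' : (0 : ℝ) < n := Real.sqrt_pos.1 hn
    have h1 : (n : ℝ) * v ^ 2 ≤ D ^ 2 := by
      have h2 : Real.sqrt n * |v| ≤ D := by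
        calc Real.sqrt n * |v| ≤ Real.sqrt n * (D * (1 / Real.sqrt n)) :=
              mul_le_mul_of_nonneg_left hv hn.le
          _ = D := by field_simp
      have h3 : (Real.sqrt n * |v|) ^ 2 ≤ D ^ 2 := pow_le_pow_left₀ (by positivity) h2 2
      rwa [mul_pow, sq_abs, Real.sq_sqrt hn'.le] at h3
    have hv2 : v ^ 2 ≤ 1 := by
      have : (n : ℝ) * v ^ 2 ≤ n * 1 := by linarith
      exact le_of_mul_le_mul_left this hn'
    have h2 : 4 * Real.exp (-(2 * (v ^ 2 / 4))) ≤ 2 + 2 * Real.cos v := by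
      have h3 := exp_le_one_sub (y := v ^ 2 / 4) (by positivity) (by linarith)
      have h4 := Real.one_sub_sq_div_two_le_cos (x := v)
      linarith
    have h3 : 4 ^ n * Real.exp (-(D ^ 2 / 2)) ≤ (2 + 2 * Real.cos v) ^ n := by
      calc (4 : ℝ) ^ n * Real.exp (-(D ^ 2 / 2)) ≤ 4 ^ n * Real.exp (n * -(2 * (v ^ 2 / 4))) := by
            apply mul_le_mul_of_nonneg_left _ (by positivity)
            apply Real.exp_le_exp.2
            linarith
        _ = (4 * Real.exp (-(2 * (v ^ 2 / 4)))) ^ n := by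
            rw [Real.exp_nat_mul, mul_pow]
        _ ≤ (2 + 2 * Real.cos v) ^ n := pow_le_pow_left₀ (by positivity) h2 n
    have h4 := central_le' n
    have h5 := hcb n
    calc Real.exp (-(D ^ 2 / 2)) / (2 * Real.pi) / (1 / Real.sqrt n)
        = 1 / (2 * Real.pi * n.centralBinom) *
          ((n.centralBinom * Real.sqrt n) * Real.exp (-(D ^ 2 / 2))) := by
          field_simp
      _ ≤ 1 / (2 * Real.pi * n.centralBinom) * (4 ^ n * Real.exp (-(D ^ 2 / 2))) := by
          apply mul_le_mul_of_nonneg_left _ (by positivity)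
          exact mul_le_mul_of_nonneg_right h4 (Real.exp_pos _).le
      _ ≤ 1 / (2 * Real.pi * n.centralBinom) * (2 + 2 * Real.cos v) ^ n :=
          mul_le_mul_of_nonneg_left h3 (by positivity)
  · refine Filter.Eventually.of_forall fun n t => ?_
    simp only [V]
    rw [V_coeff, ← intervalIntegral.integral_const_mul]
    congr 1
    funext s
    rw [V_kernel]
    ring
  · have : (fun n : ℕ => ENNReal.ofReal (α / (1 / Real.sqrt n)) * r α f (V n f)) =
        fun n : ℕ => ENNReal.ofReal (α * Real.sqrt n) * r α f (V n f) := by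
      funext n
      rw [div_div_eq_mul_div, div_one]
    rw [this]
    exact hlim

/-- The three constants are infinite: for every `α > 0`, `c_W^* = c_P^* = c_V^* = ∞`. -/
theorem result : ∀ α : ℝ, 0 < α → cW α = ⊤ ∧ cP α = ⊤ ∧ cV α = ⊤ := by
  intro α hα
  refine ⟨?_, ?_, ?_⟩
  · apply top_le_iff.1
    apply le_sSup
    refine ⟨ENNReal.zero_lt_top, ?_⟩
    rintro f hf ⟨M, hM⟩ h
    exact W_case hα hf hM h
  · apply top_le_iff.1
    apply le_sSup
    refine ⟨ENNReal.zero_lt_top, ?_⟩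
    rintro f hf ⟨M, hM⟩ hper h
    exact P_case hα hf hM hper h
  · apply top_le_iff.1
    apply le_sSup
    refine ⟨ENNReal.zero_lt_top, ?_⟩
    rintro f hf ⟨M, hM⟩ hper h
    exact V_case hα hf hM hper h

/-- In words: finiteness of one of the three limits superior already forces continuity of `f`. -/
lemma no_discontinuity {α : ℝ} (hα : 0 < α) (f : ℝ → ℝ) (hf : LebesgueMeasurable f)
    (hb : Bdd f) :
    (limsup (fun n : ℕ => ENNReal.ofReal (α * Real.sqrt n) * r α f (W n f)) atTop < ⊤ →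
      Continuous f) ∧
    (Function.Periodic f (2 * Real.pi) →
      (limsup (fun ρ : ℝ => ENNReal.ofReal (α / (1 - ρ)) * r α f (P ρ f)) (𝓝[<] 1) < ⊤ →
        Continuous f) ∧
      (limsup (fun n : ℕ => ENNReal.ofReal (α * Real.sqrt n) * r α f (V n f)) atTop < ⊤ →
        Continuous f)) := by
  obtain ⟨M, hM⟩ := hb
  exact ⟨W_case hα hf hM, fun hper => ⟨P_case hα hf hM hper, V_case hα hf hM hper⟩⟩

end Pool.Agent.Results.MP_fbd0a7_an.InfiniteConstants
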